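import Mathlib
import Pool.Agent.R361.Dif.Main
import Pool.Agent.R361.Dif.Oscil

/-!
# `BUC + cos(t²) BUC` satisfies `(Δ)` and the Loomis condition `(L_b)`

Functions on `J` are represented by functions `ℝ → X` of which only the values on `J` are used.
Definitions (in `Pool/Agent/R361/Dif/Basic.lean` and `Pool/Agent/R361/Dif/ThmB.lean`):
* `Diff a f t = f (t + a) - f t`, `Avg h f t = (1/h) ∫_t^{t+h} f(s) ds`;
* `BUC J u`: `u` is uniformly continuous and bounded on `J`;
* `L1loc J f`: `f` is Bochner integrable on `[a, b]` for all `a`, `b` in `J`;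
* `InSum J θ F`: there are `u`, `v` with `BUC J u`, `BUC J v` and `F t = u t + θ t • v t` on `J`.

Proof (found by helper270). Measurability and the theorem of Steinhaus give that
`sup_{t ∈ J, s ≤ h} |Δ_s f(t)|` is finite and that `f` is uniformly continuous on bounded parts of `J`.
For `F` in the sum space `F - M_δ F - 2 cos(t²) M_δ(cos(t²) F) → 0` at infinity, up to an error which
tends to zero with `δ`; this passes to the mean `G = (1/h) ∫_0^h Δ_s f ds = M_h f - f` of the `Δ_s f` by
the reverse lemma of Fatou, and characterises the sum space.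
-/

set_option autoImplicit false

namespace Pool.Agent.Results.MP_ee4cf4_an.DeltaLoomis

open Set MeasureTheory Pool.Agent.R361.Dif

/-- The intervals `[α, ∞)`, `(α, ∞)` and `ℝ`. -/
def Admissible (J : Set ℝ) : Prop := (∃ α : ℝ, J = Ici α) ∨ (∃ α : ℝ, J = Ioi α) ∨ J = univ

lemma Admissible.upper {J : Set ℝ} (h : Admissible J) : IsUpperSet J := by
  rcases h with ⟨α, rfl⟩ | ⟨α, rfl⟩ | rfl
  · exact isUpperSet_Ici α
  · exact isUpperSet_Ioi α
  · exact isUpperSet_univ

lemma Admissible.nonempty {J : Set ℝ} (h : Admissible J) : J.Nonempty := by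
  rcases h with ⟨α, rfl⟩ | ⟨α, rfl⟩ | rfl
  · exact nonempty_Ici
  · exact nonempty_Ioi
  · exact univ_nonempty

/-- `F` belongs to `A_cos = BUC(J, X) + cos(t²) BUC(J, X)`. -/
def InAcos {X : Type*} [NormedAddCommGroup X] [NormedSpace ℝ X] (J : Set ℝ) (F : ℝ → X) : Prop :=
  ∃ u v : ℝ → X, BUC J u ∧ BUC J v ∧ ∀ t ∈ J, F t = u t + Real.cos (t ^ 2) • v t

/-- For every admissible interval `J` and every Banach space `X` (a complex Banach space is also a
real one, and `A_cos` is the same set for it), `A_cos` satisfies `(Δ)` and `(L_b)`. -/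
theorem result {X : Type*} [NormedAddCommGroup X] [NormedSpace ℝ X] [CompleteSpace X] (J : Set ℝ)
    (hJ : Admissible J) :
    (∀ f : ℝ → X, L1loc J f → (∀ a > 0, InAcos J (Diff a f)) →
      ∀ h > 0, InAcos J (fun t => f t - Avg h f t)) ∧
    (∀ f : ℝ → X, AEStronglyMeasurable f (volume.restrict J) → (∃ C, ∀ t ∈ J, ‖f t‖ ≤ C) →
      (∀ a > 0, InAcos J (Diff a f)) → InAcos J f) := by
  refine ⟨fun f hf hA h hh => ?_, fun f hm hb hA => ?_⟩
  · exact thmB (𝕜 := ℝ) hJ.upper hJ.nonempty (osc_cos X hJ.upper) hf hA hh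
  · refine thmL (𝕜 := ℝ) hJ.upper hJ.nonempty (osc_cos X hJ.upper) ?_ hb hA
    obtain ⟨C, hC⟩ := hb
    intro a ha b _
    have hsub : Icc a b ⊆ J := fun t ht => hJ.upper ht.1 ha
    refine ⟨hm.mono_measure (Measure.restrict_mono hsub le_rfl), ?_⟩
    refine HasFiniteIntegral.restrict_of_bounded C (by simp) ?_
    refine (ae_restrict_iff' measurableSet_Icc).2 (Filter.Eventually.of_forall fun t ht => ?_)
    exact hC t (hsub ht)

end Pool.Agent.Results.MP_ee4cf4_an.DeltaLoomis
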